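import Pool.Agent.V7H18.CM.Geo
import Pool.Agent.R181.LW

/-!
# The inequality of Loomis and Whitney for parallel classes
-/

set_option autoImplicit false

namespace Pool.Agent.V7H18.CM

open Finset

universe u v w

theorem count {T : Type u} {ι : Type v} [Fintype ι] [DecidableEq ι] {X : ι → Type w}
    [∀ i, DecidableEq (X i)] (hι : 2 ≤ Fintype.card ι) (p : ∀ i, T → X i) (θ : ι → Setoid T)
    (hp : ∀ i x y, p i x = p i y → θ i x y)
    (hint : ∀ a b : T, (∀ r, (⨆ s : {s // s ≠ r}, θ s.1) a b) → a = b) (A : Finset T) :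
    #A ^ (Fintype.card ι - 1) ≤ ∏ i, #(A.image (p i)) := by
  classical
  rcases A.eq_empty_or_nonempty with rfl | hA
  · rw [card_empty, zero_pow (by omega)]
    exact Nat.zero_le _
  obtain ⟨n, hn⟩ : ∃ n, Fintype.card ι = n + 1 := ⟨Fintype.card ι - 1, by omega⟩
  let e : Fin (n + 1) ≃ ι := (Fintype.equivFinOfCardEq hn).symm
  let ψ : ι → Setoid T := fun r => ⨆ s : {s // s ≠ r}, θ s.1
  let F : T → ∀ k : Fin (n + 1), Quotient (ψ (e k)) := fun x k => Quotient.mk (ψ (e k)) x
  have hF : Function.Injective F := by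
    intro a b hab
    refine hint a b fun r => ?_
    have h1 : Quotient.mk (ψ (e (e.symm r))) a = Quotient.mk (ψ (e (e.symm r))) b :=
      congrFun hab (e.symm r)
    have h2 : ψ (e (e.symm r)) a b := Quotient.exact h1
    rw [e.apply_symm_apply] at h2
    exact h2
  have h := Pool.Agent.R181.LW.loomisWhitney n (fun k => Quotient (ψ (e k))) (A.image F)
    (hA.image F)
  rw [card_image_of_injective _ hF] at h
  rw [hn, Nat.add_sub_cancel]
  refine h.trans ?_
  rw [← e.prod_comp (fun i => #(A.image (p i)))]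
  refine prod_le_prod' fun i _ => ?_
  rw [image_image]
  refine Pool.Agent.R181.LW.card_image_le_of_factor A (p (e i)) _ ?_
  intro x _ y _ hxy
  funext k
  have hk : e (i.succAbove k) ≠ e i := fun h0 => Fin.succAbove_ne i k (e.injective h0)
  have h1 : ψ (e (i.succAbove k)) x y := by
    have h2 : θ (e i) ≤ ψ (e (i.succAbove k)) :=
      le_iSup (fun s : {s // s ≠ e (i.succAbove k)} => θ s.1) ⟨e i, hk.symm⟩
    exact h2 (hp (e i) x y hxy)
  exact Quotient.sound h1

end Pool.Agent.V7H18.CM
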