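import Pool.Agent.V7H18.CM.Lat

/-!
# Parallel classes of a finite subset of a torsion-free group

The set `T` is embedded in a torsion-free group by `pos`, and the points equivalent for `θ s` differ
by elements of the subgroup `L s`; different subgroups `L s` have trivial intersection. A part `β` of
`θ r` which permutes with the other `θ s` has only trivial pairs in the join of these `θ s`: the set
of the displacements `pos y - pos x`, `β x y`, is constant along the steps of `θ s`, and it is
translated along the steps of `β`.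
-/

set_option autoImplicit false

namespace Pool.Agent.V7H18.CM

universe u v

open Finset Classical in
/-- the displacements in the class of `x` -/
noncomputable def disp {T V : Type*} [Fintype T] [AddCommGroup V] (pos : T → V) (β : Setoid T)
    (x : T) : Finset V :=
  (univ.filter fun y => β x y).image fun y => pos y - pos x

theorem mem_disp {T V : Type*} [Fintype T] [AddCommGroup V] {pos : T → V} {β : Setoid T} {x : T}
    {d : V} : d ∈ disp pos β x ↔ ∃ y, β x y ∧ pos y - pos x = d := by
  simp [disp]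

theorem disp_shift {T V : Type*} [Fintype T] [AddCommGroup V] [DecidableEq V] {pos : T → V}
    {β : Setoid T} {x z : T} (h : β x z) :
    disp pos β z = (disp pos β x).image fun d => d - (pos z - pos x) := by
  ext d
  rw [mem_disp, Finset.mem_image]
  constructor
  · rintro ⟨y, hy, rfl⟩
    refine ⟨pos y - pos x, mem_disp.2 ⟨y, β.trans' h hy, rfl⟩, by abel⟩
  · rintro ⟨e, he, rfl⟩
    obtain ⟨y, hy, rfl⟩ := mem_disp.1 he
    exact ⟨y, β.trans' (β.symm' h) hy, by abel⟩

theorem eq_zero_of_shift {V : Type*} [AddCommGroup V] [DecidableEq V]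
    (htf : ∀ (k : ℕ) (v : V), k ≠ 0 → k • v = 0 → v = 0) (D : Finset V) (hD : D.Nonempty) (v : V)
    (h : D = D.image fun d => d - v) : v = 0 := by
  have h1 : ∑ d ∈ D, d = ∑ d ∈ D, (d - v) := by
    conv_lhs => rw [h]
    rw [Finset.sum_image]
    intro x _ y _ hxy
    exact sub_left_injective hxy
  rw [Finset.sum_sub_distrib, Finset.sum_const] at h1
  have h2 : D.card • v = 0 := by
    have := h1
    rw [eq_comm, sub_eq_self] at this
    exact this
  exact htf _ v (Finset.card_pos.2 hD).ne' h2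

theorem disjoint_of_permute {T V : Type*} [Fintype T] [AddCommGroup V] {ι : Type*}
    (htf : ∀ (k : ℕ) (v : V), k ≠ 0 → k • v = 0 → v = 0) {pos : T → V}
    {β : Setoid T} {θ : ι → Setoid T} {M : AddSubgroup V} {L : ι → AddSubgroup V}
    (hL : ∀ s, ∀ v, v ∈ M → v ∈ L s → v = 0)
    (hβ : ∀ x y, β x y → pos y - pos x ∈ M) (hθ : ∀ s x y, θ s x y → pos y - pos x ∈ L s)
    (hperm : ∀ s a b c, β a b → θ s b c → ∃ w, θ s a w ∧ β w c) {a b : T} (hab : β a b)
    (hab' : (⨆ s, θ s) a b) : pos a = pos b := by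
  classical
  have h1 : ∀ s x z, θ s x z → disp pos β x ⊆ disp pos β z := by
    intro s x z hxz d hd
    obtain ⟨y, hy, rfl⟩ := mem_disp.1 hd
    obtain ⟨w, hw1, hw2⟩ := hperm s y x z (β.symm' hy) hxz
    refine mem_disp.2 ⟨w, β.symm' hw2, ?_⟩
    have e1 : pos w - pos z - (pos y - pos x) ∈ M :=
      M.sub_mem (hβ _ _ (β.symm' hw2)) (hβ _ _ hy)
    have e2 : pos w - pos z - (pos y - pos x) ∈ L s := by
      have e3 : pos w - pos z - (pos y - pos x) = (pos w - pos y) - (pos z - pos x) := by abel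
      rw [e3]
      exact (L s).sub_mem (hθ _ _ _ hw1) (hθ _ _ _ hxz)
    exact sub_eq_zero.1 (hL s _ e1 e2)
  let K : Setoid T := ⟨fun x z => disp pos β x = disp pos β z, ⟨fun _ => rfl, fun h => h.symm,
    fun h h' => h.trans h'⟩⟩
  have h2 : (⨆ s, θ s) ≤ K := by
    refine iSup_le fun s => ?_
    intro x z hxz
    exact Finset.Subset.antisymm (h1 s x z hxz) (h1 s z x ((θ s).symm' hxz))
  have h3 : disp pos β a = disp pos β b := h2 hab'
  have h4 := disp_shift (pos := pos) hab
  rw [← h3] at h4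
  have h5 := eq_zero_of_shift htf _ ⟨0, mem_disp.2 ⟨a, β.refl' a, sub_self _⟩⟩ _ h4
  exact (sub_eq_zero.1 h5).symm

/-- the theorem for Gumm operations -/
theorem gumm_inter {T V : Type*} [Fintype T] [AddCommGroup V] {ι : Type*} [Fintype ι]
    [Nonempty ι] (htf : ∀ (k : ℕ) (v : V), k ≠ 0 → k • v = 0 → v = 0)
    {pos : T → V} (hpos : Function.Injective pos) {θ : ι → Setoid T} {L : ι → AddSubgroup V}
    (hL : ∀ r s, r ≠ s → ∀ v, v ∈ L r → v ∈ L s → v = 0)
    (hθ : ∀ s x y, θ s x y → pos y - pos x ∈ L s) {n : ℕ} {q : ℕ → T → T → T → T}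
    {p : T → T → T → T} (hG : Gumm n q p) (hcon : ∀ s, IsCon q p (θ s)) {a b : T}
    (hab : ∀ r, (⨆ s : {s // s ≠ r}, θ s.1) a b) : a = b := by
  classical
  refine iInf_bot hG hcon ?_ hab
  intro r
  set β : Setoid T := θ r ⊓ (⨆ s : {s // s ≠ r}, θ s.1) with hβ
  have hβc : IsCon q p β := (hcon r).inf (IsCon.iSup fun s => hcon s.1)
  rw [eq_bot_iff]
  intro x y hxy
  have hxy' : θ r x y ∧ (⨆ s : {s // s ≠ r}, θ s.1) x y := Setoid.inf_iff_and.1 hxy
  have h0 : ∀ s : {s // s ≠ r}, β ⊓ θ s.1 = ⊥ := by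
    intro s
    rw [eq_bot_iff]
    intro x y h
    have h1 : β x y ∧ θ s.1 x y := Setoid.inf_iff_and.1 h
    have h2 : θ r x y := (Setoid.inf_iff_and.1 h1.1).1
    have h3 := hL r s.1 (Ne.symm s.2) _ (hθ r x y h2) (hθ s.1 x y h1.2)
    exact (hpos (sub_eq_zero.1 h3)).symm
  have h1 : pos x = pos y := by
    refine disjoint_of_permute (θ := fun s : {s // s ≠ r} => θ s.1) (M := L r)
      (L := fun s : {s // s ≠ r} => L s.1) (β := β) htf ?_ ?_ ?_ ?_ hxy hxy'.2
    · intro s v hv hv'
      exact hL r s.1 (Ne.symm s.2) v hv hv'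
    · intro x y h
      exact hθ r x y (Setoid.inf_iff_and.1 h).1
    · intro s x y h
      exact hθ s.1 x y h
    · intro s a b c h h'
      exact permute hG hβc (fun s : {s // s ≠ r} => hcon s.1) inf_le_right h0 (hcon s.1) h h'
  exact hpos h1

/-- the semidistributive law for congruences of a semilattice -/
theorem semilattice_disjoint {T : Type*} {ι : Type*} (m : T → T → T)
    (hidem : ∀ x, m x x = x) (hcomm : ∀ x y, m x y = m y x)
    (hassoc : ∀ x y z, m (m x y) z = m x (m y z)) {β : Setoid T} {γ : ι → Setoid T}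
    (hβ : ∀ x y z, β x y → β (m x z) (m y z)) (hγ : ∀ j x y z, γ j x y → γ j (m x z) (m y z))
    (hdis : ∀ j x y, β x y → γ j x y → x = y) {a b : T} (hab : β a b) (hab' : (⨆ j, γ j) a b) :
    a = b := by
  have key : ∀ a b : T, β a b → (⨆ j, γ j) a b → m a b = a := by
    intro a b hab hab'
    by_contra hne
    set b' : T := m a b with hb'
    have h1 : β a b' := by
      have h2 := hβ b a a (β.symm' hab)
      rw [hidem, hcomm b a] at h2
      exact β.symm' h2
    -- the chain from `a` to `b`, multiplied by `a`, ends in `b'`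
    let P : T → Prop := fun x => ∃ z, m z a = z ∧ m z x = z ∧ m z b' ≠ z
    have hP : ∀ j x y, γ j x y → P x → P y := by
      rintro j x y hxy ⟨z, hz1, hz2, hz3⟩
      refine ⟨m z y, ?_, ?_, ?_⟩
      · rw [hassoc, hcomm y a, ← hassoc, hz1]
      · rw [hassoc, hidem]
      · intro h2
        apply hz3
        -- `z γ (m z y)`
        have h3 : γ j z (m z y) := by
          have h4 := hγ j x y z hxy
          rw [hcomm x z, hcomm y z, hz2] at h4
          exact h4
        have h5 : γ j (m z b') z := by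
          have h6 := hγ j z (m z y) b' h3
          rw [h2] at h6
          exact (γ j).trans' h6 ((γ j).symm' h3)
        have h7 : β (m z b') z := by
          have h8 := hβ a b' z h1
          rw [hcomm a z, hz1, hcomm b' z] at h8
          exact β.symm' h8
        exact hdis j _ _ h7 h5
    let K : Setoid T := ⟨fun x y => (P x ↔ P y), ⟨fun _ => Iff.rfl, fun h => h.symm,
      fun h h' => h.trans h'⟩⟩
    have hK : (⨆ j, γ j) ≤ K := by
      refine iSup_le fun j => ?_
      intro x y hxy
      exact ⟨hP j x y hxy, hP j y x ((γ j).symm' hxy)⟩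
    have h9 : K a b := hK hab'
    have h10 : P a := ⟨a, hidem a, hidem a, by
      rw [hb', ← hassoc, hidem]
      exact hne⟩
    obtain ⟨z, hz1, hz2, hz3⟩ := h9.1 h10
    apply hz3
    rw [hb', ← hassoc, hz1, hz2]
  have h1 := key a b hab hab'
  have h2 := key b a (β.symm' hab) (Setoid.symm' _ hab')
  rw [← h1, hcomm, h2]

/-- the theorem for semilattice operations -/
theorem semilattice_inter {T : Type*} {ι : Type*} [Nonempty ι] (m : T → T → T)
    (hidem : ∀ x, m x x = x) (hcomm : ∀ x y, m x y = m y x)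
    (hassoc : ∀ x y z, m (m x y) z = m x (m y z)) {θ : ι → Setoid T}
    (hθ : ∀ j x y z, θ j x y → θ j (m x z) (m y z))
    (hdis : ∀ r s, r ≠ s → ∀ x y, θ r x y → θ s x y → x = y) {a b : T}
    (hab : ∀ r, (⨆ s : {s // s ≠ r}, θ s.1) a b) : a = b := by
  have hsup : ∀ {κ : Type _} (γ : κ → Setoid T), (∀ j x y z, γ j x y → γ j (m x z) (m y z)) →
      ∀ x y z, (⨆ j, γ j) x y → (⨆ j, γ j) (m x z) (m y z) := by
    intro κ γ hγ x y z hxy
    have h1 : (⨆ j, γ j) ≤ Setoid.comap (fun x => m x z) (⨆ j, γ j) := by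
      refine iSup_le fun j => ?_
      intro x y hxy
      rw [Setoid.comap_rel]
      exact (le_iSup γ j) (hγ j x y z hxy)
    exact h1 hxy
  have h1 : ∀ r x y, θ r x y → (⨆ s : {s // s ≠ r}, θ s.1) x y → x = y := by
    intro r x y h h'
    exact semilattice_disjoint m hidem hcomm hassoc (γ := fun s : {s // s ≠ r} => θ s.1) (hθ r)
      (fun s => hθ s.1) (fun s x y h1 h2 => hdis r s.1 (Ne.symm s.2) x y h1 h2) h h'
  let u : Setoid T := ⟨fun x y => ∀ r, (⨆ s : {s // s ≠ r}, θ s.1) x y,
    ⟨fun x r => Setoid.refl' _ x, fun h r => Setoid.symm' _ (h r),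
      fun h h' r => Setoid.trans' _ (h r) (h' r)⟩⟩
  refine semilattice_disjoint m hidem hcomm hassoc (β := u) (γ := θ) ?_ hθ ?_ hab ?_
  · intro x y z h r
    exact hsup (fun s : {s // s ≠ r} => θ s.1) (fun s => hθ s.1) x y z (h r)
  · intro r x y h h'
    exact h1 r x y h' (h r)
  · obtain ⟨r⟩ := ‹Nonempty ι›
    have h2 : (⨆ s : {s // s ≠ r}, θ s.1) ≤ ⨆ s, θ s := iSup_le fun s => le_iSup θ s.1
    exact h2 (hab r)

end Pool.Agent.V7H18.CM
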