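import Mathlib

/-!
# Congruences of an algebra with Gumm operations

`T` is a set with ternary operations `q 0, ..., q n, p` which satisfy the identities of Gumm. The
equivalence relations compatible with the operations form a modular lattice, and a congruence `β`
below the join of congruences `γ j` with `β ⊓ γ j = ⊥` permutes with every congruence.
-/

set_option autoImplicit false

namespace Pool.Agent.V7H18.CM

universe u v

variable {T : Type u}

/-- compatibility of an equivalence relation with a ternary operation -/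
def Comp (f : T → T → T → T) (s : Setoid T) : Prop :=
  ∀ a a' b b' c c' : T, s a a' → s b b' → s c c' → s (f a b c) (f a' b' c')

/-- the identities of Gumm for `q 0, ..., q n` and `p` -/
structure Gumm (n : ℕ) (q : ℕ → T → T → T → T) (p : T → T → T → T) : Prop where
  idem : ∀ (i : ℕ) (x y : T), q i x y x = x
  zero : ∀ x y z : T, q 0 x y z = x
  even : ∀ i : ℕ, i < n → Even i → ∀ x y : T, q i x y y = q (i + 1) x y y
  odd : ∀ i : ℕ, i < n → Odd i → ∀ x y : T, q i x x y = q (i + 1) x x y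
  last : ∀ x y : T, q n x y y = p x y y
  mal : ∀ x y : T, p x x y = y

/-- compatibility with all the operations -/
def IsCon (q : ℕ → T → T → T → T) (p : T → T → T → T) (s : Setoid T) : Prop :=
  (∀ i : ℕ, Comp (q i) s) ∧ Comp p s

theorem comp_iSup {ι : Type v} {f : T → T → T → T} {γ : ι → Setoid T} (h : ∀ j, Comp f (γ j)) :
    Comp f (⨆ j, γ j) := by
  have key : ∀ (g : T → T), (∀ j x y, γ j x y → γ j (g x) (g y)) →
      ∀ x y, (⨆ j, γ j) x y → (⨆ j, γ j) (g x) (g y) := by
    intro g hg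
    have h1 : (⨆ j, γ j) ≤ Setoid.comap g (⨆ j, γ j) := by
      refine iSup_le fun j => ?_
      intro x y hxy
      rw [Setoid.comap_rel]
      exact (le_iSup γ j) (hg j x y hxy)
    intro x y hxy
    exact h1 hxy
  intro a a' b b' c c' ha hb hc
  have h1 := key (fun x => f x b c)
    (fun j x y hxy => h j x y b b c c hxy ((γ j).refl' b) ((γ j).refl' c)) a a' ha
  have h2 := key (fun x => f a' x c)
    (fun j x y hxy => h j a' a' x y c c ((γ j).refl' a') hxy ((γ j).refl' c)) b b' hb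
  have h3 := key (fun x => f a' b' x)
    (fun j x y hxy => h j a' a' b' b' x y ((γ j).refl' a') ((γ j).refl' b') hxy) c c' hc
  exact Setoid.trans' _ (Setoid.trans' _ h1 h2) h3

theorem comp_sup {f : T → T → T → T} {α β : Setoid T} (hα : Comp f α) (hβ : Comp f β) :
    Comp f (α ⊔ β) := by
  rw [sup_eq_iSup]
  exact comp_iSup fun j => by cases j <;> assumption

theorem comp_inf {f : T → T → T → T} {α β : Setoid T} (hα : Comp f α) (hβ : Comp f β) :
    Comp f (α ⊓ β) := by
  intro a a' b b' c c' ha hb hc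
  have ha' := Setoid.inf_iff_and.1 ha
  have hb' := Setoid.inf_iff_and.1 hb
  have hc' := Setoid.inf_iff_and.1 hc
  exact Setoid.inf_iff_and.2
    ⟨hα _ _ _ _ _ _ ha'.1 hb'.1 hc'.1, hβ _ _ _ _ _ _ ha'.2 hb'.2 hc'.2⟩

variable {q : ℕ → T → T → T → T} {p : T → T → T → T} {n : ℕ}

theorem IsCon.iSup {ι : Type v} {γ : ι → Setoid T} (h : ∀ j, IsCon q p (γ j)) :
    IsCon q p (⨆ j, γ j) :=
  ⟨fun i => comp_iSup fun j => (h j).1 i, comp_iSup fun j => (h j).2⟩

theorem IsCon.sup {α β : Setoid T} (hα : IsCon q p α) (hβ : IsCon q p β) : IsCon q p (α ⊔ β) :=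
  ⟨fun i => comp_sup (hα.1 i) (hβ.1 i), comp_sup hα.2 hβ.2⟩

theorem IsCon.inf {α β : Setoid T} (hα : IsCon q p α) (hβ : IsCon q p β) : IsCon q p (α ⊓ β) :=
  ⟨fun i => comp_inf (hα.1 i) (hβ.1 i), comp_inf hα.2 hβ.2⟩

/-- chains `β, β γ β, β γ β γ β γ β, ...` -/
def Chain (β γ : Setoid T) : ℕ → T → T → Prop
  | 0 => fun a b => β a b
  | k + 1 => fun a d => ∃ b c, Chain β γ k a b ∧ γ b c ∧ Chain β γ k c d

theorem Chain.refl (β γ : Setoid T) : ∀ (k : ℕ) (a : T), Chain β γ k a a
  | 0, a => β.refl' a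
  | k + 1, a => ⟨a, a, Chain.refl β γ k a, γ.refl' a, Chain.refl β γ k a⟩

theorem Chain.symm {β γ : Setoid T} : ∀ (k : ℕ) {a b : T}, Chain β γ k a b → Chain β γ k b a
  | 0, _, _, h => β.symm' h
  | k + 1, _, _, ⟨b, c, h1, h2, h3⟩ => ⟨c, b, Chain.symm k h3, γ.symm' h2, Chain.symm k h1⟩

theorem Chain.succ {β γ : Setoid T} {k : ℕ} {a b : T} (h : Chain β γ k a b) :
    Chain β γ (k + 1) a b :=
  ⟨b, b, h, γ.refl' b, Chain.refl β γ k b⟩

theorem Chain.mono {β γ : Setoid T} {k l : ℕ} (hkl : k ≤ l) {a b : T} (h : Chain β γ k a b) :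
    Chain β γ l a b := by
  induction hkl with
  | refl => exact h
  | step _ ih => exact ih.succ

theorem Chain.comp {β γ : Setoid T} {f : T → T → T → T} (hβ : Comp f β) (hγ : Comp f γ) :
    ∀ (k : ℕ) (a a' b b' c c' : T), Chain β γ k a a' → Chain β γ k b b' → Chain β γ k c c' →
      Chain β γ k (f a b c) (f a' b' c')
  | 0, _, _, _, _, _, _, h1, h2, h3 => hβ _ _ _ _ _ _ h1 h2 h3
  | k + 1, _, _, _, _, _, _, ⟨a1, a2, h1, h1', h1''⟩, ⟨b1, b2, h2, h2', h2''⟩,
      ⟨c1, c2, h3, h3', h3''⟩ =>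
    ⟨f a1 b1 c1, f a2 b2 c2, Chain.comp hβ hγ k _ _ _ _ _ _ h1 h2 h3,
      hγ _ _ _ _ _ _ h1' h2' h3', Chain.comp hβ hγ k _ _ _ _ _ _ h1'' h2'' h3''⟩

theorem sup_chain {β γ : Setoid T} {a b : T} (h : (β ⊔ γ) a b) : ∃ k, Chain β γ k a b := by
  let K : Setoid T := ⟨fun a b => ∃ k, Chain β γ k a b, ⟨fun a => ⟨0, Chain.refl β γ 0 a⟩,
    fun ⟨k, hk⟩ => ⟨k, hk.symm⟩, fun {x y z} ⟨k, hk⟩ ⟨l, hl⟩ =>
      ⟨max k l + 1, y, y, hk.mono (le_max_left _ _), γ.refl' y, hl.mono (le_max_right _ _)⟩⟩⟩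
  have h1 : β ⊔ γ ≤ K := by
    refine sup_le ?_ ?_
    · intro x y hxy
      exact ⟨0, hxy⟩
    · intro x y hxy
      exact ⟨1, x, y, β.refl' x, hxy, β.refl' y⟩
  exact h1 h

/-- the modular law -/
theorem modular (hG : Gumm n q p) {α β γ : Setoid T} (hα : IsCon q p α) (hβ : IsCon q p β)
    (hγ : IsCon q p γ) (hle : γ ≤ α) : α ⊓ (β ⊔ γ) ≤ (α ⊓ β) ⊔ γ := by
  set δ : Setoid T := (α ⊓ β) ⊔ γ with hδ
  have hγδ : ∀ {x y}, γ x y → δ x y := fun {x y} h => (le_sup_right : γ ≤ (α ⊓ β) ⊔ γ) h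
  have key : ∀ (k : ℕ) (a d : T), α a d → Chain β γ k a d → δ a d := by
    intro k
    induction k with
    | zero =>
      intro a d h1 h2
      exact (le_sup_left : α ⊓ β ≤ (α ⊓ β) ⊔ γ) (Setoid.inf_iff_and.2 ⟨h1, h2⟩)
    | succ k ih =>
      rintro a d had ⟨b, c, hab, hbc, hcd⟩
      have hbc' : α b c := hle hbc
      have rc : ∀ x, Chain β γ k x x := Chain.refl β γ k
      -- the elements `q i a b d` and `q i a c d`
      have hvw : ∀ i, δ (q i a b d) (q i a c d) := fun i =>
        hγδ (hγ.1 i _ _ _ _ _ _ (γ.refl' a) hbc (γ.refl' d))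
      have hα1 : ∀ i x, α (q i a x d) a := by
        intro i x
        have h1 := hα.1 i a a x x d a (α.refl' a) (α.refl' x) (α.symm' had)
        rwa [hG.idem] at h1
      have step : ∀ i, i ≤ n → δ a (q i a b d) := by
        intro i
        induction i with
        | zero =>
          intro _
          have h0 : q 0 a b d = a := hG.zero _ _ _
          rw [h0]
        | succ i ih' =>
          intro hi
          have h0 := ih' (by omega)
          rcases Nat.even_or_odd i with he | ho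
          · -- through `q i a d d`
            have h1 : δ (q i a c d) (q i a d d) :=
              ih _ _ (α.trans' (hα1 i c) (α.symm' (hα1 i d)))
                (Chain.comp (hβ.1 i) (hγ.1 i) k _ _ _ _ _ _ (rc a) hcd (rc d))
            have h2 : δ (q (i + 1) a d d) (q (i + 1) a c d) :=
              ih _ _ (α.trans' (hα1 _ d) (α.symm' (hα1 _ c)))
                (Chain.comp (hβ.1 _) (hγ.1 _) k _ _ _ _ _ _ (rc a) hcd.symm (rc d))
            rw [hG.even i (by omega) he] at h1
            exact δ.trans' h0 (δ.trans' (hvw i) (δ.trans' h1 (δ.trans' h2 (δ.symm' (hvw _)))))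
          · have h1 : δ (q i a b d) (q i a a d) :=
              ih _ _ (α.trans' (hα1 i b) (α.symm' (hα1 i a)))
                (Chain.comp (hβ.1 i) (hγ.1 i) k _ _ _ _ _ _ (rc a) hab.symm (rc d))
            have h2 : δ (q (i + 1) a a d) (q (i + 1) a b d) :=
              ih _ _ (α.trans' (hα1 _ a) (α.symm' (hα1 _ b)))
                (Chain.comp (hβ.1 _) (hγ.1 _) k _ _ _ _ _ _ (rc a) hab (rc d))
            rw [hG.odd i (by omega) ho] at h1
            exact δ.trans' h0 (δ.trans' h1 h2)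
      have h1 : δ a (q n a c d) := δ.trans' (step n le_rfl) (hvw n)
      have h2 : δ (q n a c d) (q n a d d) :=
        ih _ _ (α.trans' (hα1 n c) (α.symm' (hα1 n d)))
          (Chain.comp (hβ.1 n) (hγ.1 n) k _ _ _ _ _ _ (rc a) hcd (rc d))
      have hpa : α (p a d d) a := by
        rw [← hG.last]
        exact hα1 n d
      have hpb : α (p b c d) a := by
        have h3 := hα.2 b b c b d d (α.refl' b) (α.symm' hbc') (α.refl' d)
        rw [hG.mal] at h3
        exact α.trans' h3 (α.symm' had)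
      have h3 : δ (p a d d) (p b c d) :=
        ih _ _ (α.trans' hpa (α.symm' hpb))
          (Chain.comp hβ.2 hγ.2 k _ _ _ _ _ _ hab hcd.symm (rc d))
      have h4 : δ (p b c d) d := by
        have h5 := hγ.2 b b c b d d (γ.refl' b) (γ.symm' hbc) (γ.refl' d)
        rw [hG.mal] at h5
        exact hγδ h5
      rw [hG.last] at h2
      exact δ.trans' h1 (δ.trans' h2 (δ.trans' h3 h4))
  intro x y hxy
  have hxy' := Setoid.inf_iff_and.1 hxy
  obtain ⟨k, hk⟩ := sup_chain hxy'.2
  exact key k x y hxy'.1 hk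

/-- a congruence `β` below the join of congruences `γ j` with `β ⊓ γ j = ⊥`: the difference operation
is a Mal'cev operation on the pairs in `β` -/
theorem malcev_on (hG : Gumm n q p) {ι : Type v} {β : Setoid T} {γ : ι → Setoid T}
    (hβ : IsCon q p β) (hγ : ∀ j, IsCon q p (γ j)) (hle : β ≤ ⨆ j, γ j)
    (hdis : ∀ j, β ⊓ γ j = ⊥) {x y : T} (hxy : β x y) : p x y y = x := by
  have h1 : ∀ (i : ℕ) (z : T), (⨆ j, γ j) x z → q i x y z = q i x x z := by
    intro i
    let K : Setoid T := ⟨fun z z' => (q i x y z = q i x x z ↔ q i x y z' = q i x x z'),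
      ⟨fun _ => Iff.rfl, fun h => h.symm, fun h h' => h.trans h'⟩⟩
    have hK : (⨆ j, γ j) ≤ K := by
      refine iSup_le fun j => ?_
      have h2 : ∀ z z', γ j z z' → q i x y z = q i x x z → q i x y z' = q i x x z' := by
        intro z z' hz he
        have h3 : β (q i x y z') (q i x x z') :=
          hβ.1 i _ _ _ _ _ _ (β.refl' x) (β.symm' hxy) (β.refl' z')
        have h4 : γ j (q i x y z') (q i x y z) :=
          (hγ j).1 i _ _ _ _ _ _ ((γ j).refl' x) ((γ j).refl' y) ((γ j).symm' hz)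
        have h5 : γ j (q i x x z) (q i x x z') :=
          (hγ j).1 i _ _ _ _ _ _ ((γ j).refl' x) ((γ j).refl' x) hz
        rw [he] at h4
        have h6 : (β ⊓ γ j) (q i x y z') (q i x x z') :=
          Setoid.inf_iff_and.2 ⟨h3, (γ j).trans' h4 h5⟩
        rw [hdis j] at h6
        exact h6
      intro z z' hz
      exact ⟨h2 z z' hz, h2 z' z ((γ j).symm' hz)⟩
    intro z hz
    have h7 : K x z := hK hz
    refine h7.1 ?_
    rw [hG.idem, hG.idem]
  have h2 : ∀ i, q i x y y = q i x x y := fun i => h1 i y (hle hxy)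
  have h3 : ∀ i, i ≤ n → q i x y y = x := by
    intro i
    induction i with
    | zero =>
      intro _
      exact hG.zero _ _ _
    | succ i ih =>
      intro hi
      rcases Nat.even_or_odd i with he | ho
      · rw [← hG.even i (by omega) he]
        exact ih (by omega)
      · rw [h2, ← hG.odd i (by omega) ho, ← h2]
        exact ih (by omega)
  rw [← hG.last]
  exact h3 n le_rfl

/-- such a congruence permutes with every congruence -/
theorem permute (hG : Gumm n q p) {ι : Type v} {β : Setoid T} {γ : ι → Setoid T}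
    (hβ : IsCon q p β) (hγ : ∀ j, IsCon q p (γ j)) (hle : β ≤ ⨆ j, γ j)
    (hdis : ∀ j, β ⊓ γ j = ⊥) {α : Setoid T} (hα : IsCon q p α) {a b c : T} (hab : β a b)
    (hbc : α b c) : ∃ w, α a w ∧ β w c := by
  refine ⟨p a b c, ?_, ?_⟩
  · have h1 := hα.2 a a b b b c (α.refl' a) (α.refl' b) hbc
    rwa [malcev_on hG hβ hγ hle hdis hab] at h1
  · have h1 := hβ.2 a b b b c c hab (β.refl' b) (β.refl' c)
    rwa [hG.mal] at h1

/-- if all the `θ r` are disjoint from the joins of the others, the joins have no common pairs -/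
theorem iInf_bot {ι : Type v} [Fintype ι] [DecidableEq ι] [Nonempty ι] (hG : Gumm n q p)
    {θ : ι → Setoid T} (hθ : ∀ r, IsCon q p (θ r))
    (hind : ∀ r, θ r ⊓ (⨆ s : {s // s ≠ r}, θ s.1) = ⊥) {a b : T}
    (hab : ∀ r, (⨆ s : {s // s ≠ r}, θ s.1) a b) : a = b := by
  have key : ∀ F : Finset ι, F.Nonempty → (⨆ s : {s // s ∉ F}, θ s.1) a b := by
    intro F hF
    induction hF using Finset.Nonempty.cons_induction with
    | singleton r =>
      have h1 : (⨆ s : {s // s ≠ r}, θ s.1) ≤ ⨆ s : {s // s ∉ ({r} : Finset ι)}, θ s.1 := by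
        refine iSup_le fun s => ?_
        exact le_iSup (fun s : {s // s ∉ ({r} : Finset ι)} => θ s.1)
          ⟨s.1, by rw [Finset.mem_singleton]; exact s.2⟩
      exact h1 (hab r)
    | cons r F hr hF ih =>
      set ρ : Setoid T := ⨆ s : {s // s ∉ Finset.cons r F hr}, θ s.1 with hρ
      set ψ : Setoid T := ⨆ s : {s // s ≠ r}, θ s.1 with hψ
      have h1 : (⨆ s : {s // s ∉ F}, θ s.1) ≤ θ r ⊔ ρ := by
        refine iSup_le fun s => ?_
        by_cases hs : s.1 = r
        · rw [hs]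
          exact le_sup_left
        · refine le_trans ?_ (le_sup_right : ρ ≤ θ r ⊔ ρ)
          exact le_iSup (fun s : {s // s ∉ Finset.cons r F hr} => θ s.1)
            ⟨s.1, by rw [Finset.mem_cons, not_or]; exact ⟨hs, s.2⟩⟩
      have h2 : ρ ≤ ψ := by
        refine iSup_le fun s => ?_
        refine le_iSup (fun s : {s // s ≠ r} => θ s.1) ⟨s.1, ?_⟩
        have := s.2
        rw [Finset.mem_cons, not_or] at this
        exact this.1
      have h3 : ψ ⊓ (θ r ⊔ ρ) ≤ (ψ ⊓ θ r) ⊔ ρ :=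
        modular hG (IsCon.iSup fun s => hθ s.1) (hθ r) (IsCon.iSup fun s => hθ s.1) h2
      have h4 : ψ ⊓ θ r = ⊥ := by
        rw [inf_comm]
        exact hind r
      rw [h4, bot_sup_eq] at h3
      exact h3 (Setoid.inf_iff_and.2 ⟨hab r, h1 ih⟩)
  have h1 := key Finset.univ Finset.univ_nonempty
  have h2 : (⨆ s : {s // s ∉ (Finset.univ : Finset ι)}, θ s.1) ≤ ⊥ :=
    iSup_le fun s => absurd (Finset.mem_univ s.1) s.2
  exact h2 h1

end Pool.Agent.V7H18.CM
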