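import Pool.Agent.V7H18.CM.Geo

/-!
# Pairwise permuting parallel classes
-/

set_option autoImplicit false

namespace Pool.Agent.V7H18.CM

/-- an equivalence relation which permutes with all the `γ j` permutes with their join -/
theorem permute_iSup {T ι : Type*} {β : Setoid T} {γ : ι → Setoid T}
    (h : ∀ j a b c, β a b → γ j b c → ∃ w, γ j a w ∧ β w c) {a b c : T} (hab : β a b)
    (hbc : (⨆ j, γ j) b c) : ∃ w, (⨆ j, γ j) a w ∧ β w c := by
  let P : T → T → Prop := fun b c => ∀ a, β a b → ∃ w, (⨆ j, γ j) a w ∧ β w c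
  have hP : ∀ b c d, P b c → P c d → P b d := by
    intro b c d h1 h2 a ha
    obtain ⟨w, hw1, hw2⟩ := h1 a ha
    obtain ⟨w', hw1', hw2'⟩ := h2 w hw2
    exact ⟨w', Setoid.trans' _ hw1 hw1', hw2'⟩
  let K : Setoid T := ⟨fun b c => P b c ∧ P c b, ⟨fun b => ⟨fun a ha => ⟨a, Setoid.refl' _ a, ha⟩,
    fun a ha => ⟨a, Setoid.refl' _ a, ha⟩⟩, fun h => ⟨h.2, h.1⟩,
    fun {x y z} h h' => ⟨hP x y z h.1 h'.1, hP z y x h'.2 h.2⟩⟩⟩
  have hK : (⨆ j, γ j) ≤ K := by
    refine iSup_le fun j => ?_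
    have h1 : ∀ b c, γ j b c → P b c := by
      intro b c hbc a ha
      obtain ⟨w, hw1, hw2⟩ := h j a b c ha hbc
      exact ⟨w, (le_iSup γ j) hw1, hw2⟩
    intro b c hbc
    exact ⟨h1 b c hbc, h1 c b ((γ j).symm' hbc)⟩
  have h2 : K b c := hK hbc
  exact h2.1 a hab

/-- the theorem for permuting classes -/
theorem permute_inter {T V : Type*} [Fintype T] [AddCommGroup V] {ι : Type*} [Fintype ι]
    [Nonempty ι] (htf : ∀ (k : ℕ) (v : V), k ≠ 0 → k • v = 0 → v = 0)
    {pos : T → V} (hpos : Function.Injective pos) {θ : ι → Setoid T} {L : ι → AddSubgroup V}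
    (hL : ∀ r s, r ≠ s → ∀ v, v ∈ L r → v ∈ L s → v = 0)
    (hθ : ∀ s x y, θ s x y → pos y - pos x ∈ L s)
    (hperm : ∀ r s, r ≠ s → ∀ a b c, θ r a b → θ s b c → ∃ w, θ s a w ∧ θ r w c) {a b : T}
    (hab : ∀ r, (⨆ s : {s // s ≠ r}, θ s.1) a b) : a = b := by
  classical
  have hind : ∀ r x y, θ r x y → (⨆ s : {s // s ≠ r}, θ s.1) x y → x = y := by
    intro r x y hxy hxy'
    set ψ : Setoid T := ⨆ s : {s // s ≠ r}, θ s.1 with hψ
    refine hpos ?_
    refine disjoint_of_permute (β := θ r ⊓ ψ) (θ := fun s : {s // s ≠ r} => θ s.1) (M := L r)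
      (L := fun s : {s // s ≠ r} => L s.1) htf ?_ ?_ ?_ ?_
      (Setoid.inf_iff_and.2 ⟨hxy, hxy'⟩) hxy'
    · intro s v hv hv'
      exact hL r s.1 (Ne.symm s.2) v hv hv'
    · intro x y h
      exact hθ r x y (Setoid.inf_iff_and.1 h).1
    · intro s x y h
      exact hθ s.1 x y h
    · intro s a b c h h'
      have h1 := Setoid.inf_iff_and.1 h
      obtain ⟨w, hw1, hw2⟩ := hperm r s.1 (Ne.symm s.2) a b c h1.1 h'
      have hs : ∀ {x y}, θ s.1 x y → ψ x y := fun {x y} h =>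
        (le_iSup (fun s : {s // s ≠ r} => θ s.1) s) h
      refine ⟨w, hw1, Setoid.inf_iff_and.2 ⟨hw2, ?_⟩⟩
      exact ψ.trans' (ψ.symm' (hs hw1)) (ψ.trans' h1.2 (hs h'))
  have key : ∀ F : Finset ι, F.Nonempty → (⨆ s : {s // s ∉ F}, θ s.1) a b := by
    intro F hF
    induction hF using Finset.Nonempty.cons_induction with
    | singleton r =>
      have h1 : (⨆ s : {s // s ≠ r}, θ s.1) ≤ ⨆ s : {s // s ∉ ({r} : Finset ι)}, θ s.1 := by
        refine iSup_le fun s => ?_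
        exact le_iSup (fun s : {s // s ∉ ({r} : Finset ι)} => θ s.1)
          ⟨s.1, by rw [Finset.mem_singleton]; exact s.2⟩
      exact h1 (hab r)
    | cons r F hr hF ih =>
      set ρ : Setoid T := ⨆ s : {s // s ∉ Finset.cons r F hr}, θ s.1 with hρ
      set ψ : Setoid T := ⨆ s : {s // s ≠ r}, θ s.1 with hψ
      -- the class of `F`, as a composition
      have h2 : ρ ≤ ψ := by
        refine iSup_le fun s => ?_
        refine le_iSup (fun s : {s // s ≠ r} => θ s.1) ⟨s.1, ?_⟩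
        have := s.2
        rw [Finset.mem_cons, not_or] at this
        exact this.1
      have hpρ : ∀ x y z, θ r x y → ρ y z → ∃ w, ρ x w ∧ θ r w z := by
        intro x y z hxy hyz
        refine permute_iSup (γ := fun s : {s // s ∉ Finset.cons r F hr} => θ s.1) ?_ hxy hyz
        intro s a b c h h'
        have h3 : r ≠ s.1 := by
          have := s.2
          rw [Finset.mem_cons, not_or] at this
          exact Ne.symm this.1
        exact hperm r s.1 h3 a b c h h'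
      let C : Setoid T := ⟨fun x z => ∃ w, ρ x w ∧ θ r w z,
        ⟨fun x => ⟨x, ρ.refl' x, (θ r).refl' x⟩, fun {x z} ⟨w, h3, h4⟩ =>
          hpρ z w x ((θ r).symm' h4) (ρ.symm' h3), fun {x y z} ⟨w, h3, h4⟩ ⟨w', h3', h4'⟩ => by
            obtain ⟨w'', h5, h6⟩ := hpρ w y w' h4 h3'
            exact ⟨w'', ρ.trans' h3 h5, (θ r).trans' h6 h4'⟩⟩⟩
      have h1 : (⨆ s : {s // s ∉ F}, θ s.1) ≤ C := by
        refine iSup_le fun s => ?_
        intro x y hxy
        by_cases hs : s.1 = r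
        · refine ⟨x, ρ.refl' x, ?_⟩
          rw [← hs]
          exact hxy
        · refine ⟨y, ?_, (θ r).refl' y⟩
          exact (le_iSup (fun s : {s // s ∉ Finset.cons r F hr} => θ s.1)
            ⟨s.1, by rw [Finset.mem_cons, not_or]; exact ⟨hs, s.2⟩⟩) hxy
      obtain ⟨w, hw1, hw2⟩ : ∃ w, ρ a w ∧ θ r w b := h1 ih
      have h3 : ψ w b := ψ.trans' (ψ.symm' (h2 hw1)) (hab r)
      have h4 : w = b := hind r w b hw2 h3
      rw [← h4]
      exact hw1
  have h1 := key Finset.univ Finset.univ_nonempty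
  have h2 : (⨆ s : {s // s ∉ (Finset.univ : Finset ι)}, θ s.1) ≤ ⊥ :=
    iSup_le fun s => absurd (Finset.mem_univ s.1) s.2
  exact h2 h1

end Pool.Agent.V7H18.CM
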