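import Pool.Agent.V7H18.CM.Count
import Pool.Agent.V7H18.CM.Perm

/-!
# The arithmetic Kakeya conjecture for all subsets of sets with many polymorphisms

Let `S` be a finite set of slopes and let `B ⊂ ℤ × ℤ` be finite. Suppose that the projections `π_r(B)`,
`r ∈ S ∪ {∞}`, carry operations, one family of operations for each projection, which are arbitrary
functions, unrelated to each other and to the additive structure, such that `B` is closed under them
(the point `d` with `π_r(d) = f_r(π_r(a), π_r(b), π_r(c))` for all `r ∈ S ∪ {∞}` exists and lies in `B`).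
We prove

`|A| ^ |S| ≤ |π_∞(A)| ∏_{r ∈ S} |π_r(A)|`

for EVERY subset `A` of `B` (of any size) in the following cases:

* the operations satisfy the identities of Gumm, the equational form of the modularity of the lattices
  of congruences. For example: majority operations and all near-unanimity operations; Mal'cev
  operations `m(x, y, y) = x = m(y, y, x)`, in particular `x y⁻¹ z` for arbitrary group structures on
  the projections, or all polynomials of arbitrary quasigroup, loop, ring or lattice structures;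
* the operations are semilattice operations (idempotent, commutative, associative);
* no operations are given, but `B` contains the fourth vertex of each parallelogram with three vertices
  in `B` whose sides are parallel to the fibres of two of the projections.

So the inequality of the conjecture holds with the exponent `1 + ε` for the sets which are covered by
few sets of this kind. The starting result `MajorityClosed` is the case of majority operations and
`A = B`.

Idea of the proof. The kernels `θ_r` of the projections are congruences of the algebra `B`. Let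
`ψ_r` be the join of the `θ_s`, `s ≠ r`, and let `β = θ_r ∧ ψ_r`. As `β ∧ θ_s = 0` for `s ≠ r`, a
centrality argument shows that the operation `p` satisfies `p(x, y, y) = x` for the pairs in `β`, and so
`β` permutes with all congruences. Hence the set of the displacements `y - x`, `(x, y) ∈ β`, is
constant along the steps of `θ_s`, `s ≠ r`, because the lines of `θ_r` and of `θ_s` are not parallel,
and it is translated along the steps of `β`; as it is finite, `β = 0`. (Here the geometry of the plane is
used: three points on which the three directions induce the three different pairs are a counterexample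
to the inequality, with a modular lattice of equivalence relations.) By the modular law the meet of
all `ψ_r` is `0`, `B` is embedded in the product of the `B / ψ_r`, `π_s` determines all coordinates but
one, and the inequality of Loomis and Whitney can be applied to every subset. For semilattice
operations the congruence lattices are meet-semidistributive, which gives the same conclusion.
-/

set_option autoImplicit false

namespace Pool.Agent.V7H18.CM.ModularClosedH18

open Finset

/-- `val ∞ (x, y) = y` and `val r (x, y) = x + r y`; the slope `∞` is `none` -/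
def val (t : Option ℚ) (z : ℤ × ℤ) : ℚ := t.elim (z.2 : ℚ) fun r => (z.1 : ℚ) + r * (z.2 : ℚ)

/-- the projection `π_t(A)` with slope `t ∈ ℚ ∪ {∞}` -/
def proj (t : Option ℚ) (A : Finset (ℤ × ℤ)) : Finset ℚ := A.image (val t)

/-- the largest size of a projection of `A` with slope `∞` or in `S` -/
def big (S : Finset ℚ) (A : Finset (ℤ × ℤ)) : ℕ := (insertNone S).sup fun t => #(proj t A)

/-- the identities of Gumm for the ternary operations `q 0, …, q n` and `p` -/
structure IsGumm (n : ℕ) (q : ℕ → ℚ → ℚ → ℚ → ℚ) (p : ℚ → ℚ → ℚ → ℚ) : Prop where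
  idem : ∀ i, i ≤ n → ∀ x y : ℚ, q i x y x = x
  first : ∀ x y z : ℚ, q 0 x y z = x
  even : ∀ i, i < n → Even i → ∀ x y : ℚ, q i x y y = q (i + 1) x y y
  odd : ∀ i, i < n → Odd i → ∀ x y : ℚ, q i x x y = q (i + 1) x x y
  last : ∀ x y : ℚ, q n x y y = p x y y
  mal : ∀ x y : ℚ, p x x y = y

/-- `m` is idempotent, commutative and associative -/
structure IsSemilattice (m : ℚ → ℚ → ℚ) : Prop where
  idem : ∀ x : ℚ, m x x = x
  comm : ∀ x y : ℚ, m x y = m y x
  assoc : ∀ x y z : ℚ, m (m x y) z = m x (m y z)

/-- `μ (x, x, y) = μ (x, y, x) = μ (y, x, x) = x` -/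
structure IsMajority (μ : ℚ → ℚ → ℚ → ℚ) : Prop where
  one : ∀ x y : ℚ, μ x x y = x
  two : ∀ x y : ℚ, μ x y x = x
  three : ∀ x y : ℚ, μ y x x = x

/-- `m (x, y, y) = x = m (y, y, x)` -/
structure IsMalcev (m : ℚ → ℚ → ℚ → ℚ) : Prop where
  one : ∀ x y : ℚ, m x y y = x
  two : ∀ x y : ℚ, m y y x = x

/-- `B` is closed under the ternary operations `f t` of its projections, `t ∈ S ∪ {∞}` -/
def ClosedThree (S : Finset ℚ) (f : Option ℚ → ℚ → ℚ → ℚ → ℚ) (B : Finset (ℤ × ℤ)) : Prop :=
  ∀ a ∈ B, ∀ b ∈ B, ∀ c ∈ B, ∃ d ∈ B, ∀ t ∈ insertNone S,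
    val t d = f t (val t a) (val t b) (val t c)

/-- `B` is closed under the binary operations `f t` of its projections, `t ∈ S ∪ {∞}` -/
def ClosedTwo (S : Finset ℚ) (f : Option ℚ → ℚ → ℚ → ℚ) (B : Finset (ℤ × ℤ)) : Prop :=
  ∀ a ∈ B, ∀ b ∈ B, ∃ d ∈ B, ∀ t ∈ insertNone S, val t d = f t (val t a) (val t b)

/-- `B` is closed under Gumm operations of its projections -/
def GummClosed (S : Finset ℚ) (B : Finset (ℤ × ℤ)) : Prop :=
  ∃ (n : ℕ) (q : Option ℚ → ℕ → ℚ → ℚ → ℚ → ℚ) (p : Option ℚ → ℚ → ℚ → ℚ → ℚ),
    (∀ t ∈ insertNone S, IsGumm n (q t) (p t)) ∧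
    (∀ i, i ≤ n → ClosedThree S (fun t => q t i) B) ∧ ClosedThree S p B

/-- `B` is closed under semilattice operations of its projections -/
def SemilatticeClosed (S : Finset ℚ) (B : Finset (ℤ × ℤ)) : Prop :=
  ∃ m : Option ℚ → ℚ → ℚ → ℚ, (∀ t ∈ insertNone S, IsSemilattice (m t)) ∧ ClosedTwo S m B

/-- `B` is closed under the completion of parallelograms whose sides are parallel to the fibres of two
different projections `π_r`, `π_s`, `r, s ∈ S ∪ {∞}` -/
def ParallelogramClosed (S : Finset ℚ) (B : Finset (ℤ × ℤ)) : Prop :=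
  ∀ r ∈ insertNone S, ∀ s ∈ insertNone S, r ≠ s → ∀ a ∈ B, ∀ b ∈ B, ∀ c ∈ B,
    val r a = val r b → val s b = val s c → a - b + c ∈ B

/-- one of the three closure properties -/
def Structured (S : Finset ℚ) (B : Finset (ℤ × ℤ)) : Prop :=
  GummClosed S B ∨ SemilatticeClosed S B ∨ ParallelogramClosed S B

/-- `B` is closed under majority operations of its projections -/
def MajorityClosed (S : Finset ℚ) (B : Finset (ℤ × ℤ)) : Prop :=
  ∃ μ : Option ℚ → ℚ → ℚ → ℚ → ℚ, (∀ t ∈ insertNone S, IsMajority (μ t)) ∧ ClosedThree S μ B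

/-- `B` is closed under Mal'cev operations of its projections -/
def MalcevClosed (S : Finset ℚ) (B : Finset (ℤ × ℤ)) : Prop :=
  ∃ m : Option ℚ → ℚ → ℚ → ℚ → ℚ, (∀ t ∈ insertNone S, IsMalcev (m t)) ∧ ClosedThree S m B

theorem malcev_gumm (S : Finset ℚ) (B : Finset (ℤ × ℤ)) (h : MalcevClosed S B) :
    GummClosed S B := by
  obtain ⟨m, hm, hB⟩ := h
  refine ⟨0, fun _ _ x _ _ => x, m, ?_, ?_, hB⟩
  · intro t ht
    exact ⟨fun _ _ _ _ => rfl, fun _ _ _ => rfl, fun _ h => absurd h (by omega),
      fun _ h => absurd h (by omega), fun x y => ((hm t ht).one x y).symm,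
      fun x y => (hm t ht).two y x⟩
  · intro i _ a ha b _ c _
    exact ⟨a, ha, fun t _ => rfl⟩

theorem majority_gumm (S : Finset ℚ) (B : Finset (ℤ × ℤ)) (h : MajorityClosed S B) :
    GummClosed S B := by
  obtain ⟨μ, hμ, hB⟩ := h
  refine ⟨2, fun t i => if i = 2 then μ t else fun x _ _ => x, fun _ _ _ z => z, ?_, ?_, ?_⟩
  · intro t ht
    refine ⟨?_, ?_, ?_, ?_, ?_, ?_⟩
    · intro i _ x y
      by_cases h2 : i = 2
      · simp only [h2, if_true]
        exact (hμ t ht).two x y
      · simp only [h2, if_false]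
    · intro x y z
      simp
    · intro i hi he x y
      interval_cases i
      · simp
      · exact absurd he (by decide)
    · intro i hi ho x y
      interval_cases i
      · exact absurd ho (by decide)
      · simp only [if_true, show (1 : ℕ) ≠ 2 by decide, if_false]
        exact ((hμ t ht).one x y).symm
    · intro x y
      simp only [if_true]
      exact (hμ t ht).three y x
    · intro x y
      rfl
  · intro i _
    by_cases h2 : i = 2
    · simp only [h2, if_true]
      exact hB
    · simp only [h2, if_false]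
      intro a ha b _ c _
      exact ⟨a, ha, fun t _ => rfl⟩
  · intro a _ b _ c hc
    exact ⟨c, hc, fun t _ => rfl⟩

/-- the linear map `z ↦ val t z` -/
def valHom (t : Option ℚ) : ℤ × ℤ →+ ℚ where
  toFun := val t
  map_zero' := by cases t <;> simp [val]
  map_add' := by
    intro x y
    cases t with
    | none => simp [val]
    | some r =>
      simp only [val, Option.elim_some, Prod.fst_add, Prod.snd_add]
      push_cast
      ring

theorem two_directions {r s : Option ℚ} (hrs : r ≠ s) (v : ℤ × ℤ) (h1 : val r v = 0)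
    (h2 : val s v = 0) : v = 0 := by
  obtain ⟨x, y⟩ := v
  rcases r with _ | r <;> rcases s with _ | s
  · exact absurd rfl hrs
  · simp only [val, Option.elim_none, Option.elim_some] at h1 h2
    rw [h1, mul_zero, add_zero] at h2
    exact Prod.ext (by exact_mod_cast h2) (by exact_mod_cast h1)
  · simp only [val, Option.elim_none, Option.elim_some] at h1 h2
    rw [h2, mul_zero, add_zero] at h1
    exact Prod.ext (by exact_mod_cast h1) (by exact_mod_cast h2)
  · have hne : (r : ℚ) - s ≠ 0 := by
      intro h0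
      exact hrs (congrArg some (sub_eq_zero.1 h0))
    simp only [val, Option.elim_some] at h1 h2
    have e3 : (r - s) * (y : ℚ) = 0 := by linear_combination h1 - h2
    have e4 : (y : ℚ) = 0 := (mul_eq_zero.1 e3).resolve_left hne
    rw [e4, mul_zero, add_zero] at h1
    exact Prod.ext (by exact_mod_cast h1) (by exact_mod_cast e4)

theorem torsion_free (k : ℕ) (v : ℤ × ℤ) (hk : k ≠ 0) (h : k • v = 0) : v = 0 := by
  obtain ⟨x, y⟩ := v
  rw [Prod.smul_mk, Prod.mk_eq_zero] at h
  simp only [nsmul_eq_mul, mul_eq_zero, Nat.cast_eq_zero, hk, false_or] at h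
  exact Prod.ext h.1 h.2

/-- the equivalence relation of the projection -/
def ker (B : Finset (ℤ × ℤ)) (t : Option ℚ) : Setoid {z // z ∈ B} :=
  Setoid.ker fun z : {z // z ∈ B} => val t z.1

theorem ker_iff {B : Finset (ℤ × ℤ)} {t : Option ℚ} {x y : {z // z ∈ B}} :
    ker B t x y ↔ val t x.1 = val t y.1 := Iff.rfl

theorem ext_of_two {B : Finset (ℤ × ℤ)} {r s : Option ℚ} (hrs : r ≠ s) {x y : {z // z ∈ B}}
    (h1 : val r x.1 = val r y.1) (h2 : val s x.1 = val s y.1) : x = y := by
  refine Subtype.ext (sub_eq_zero.1 (two_directions hrs (x.1 - y.1) ?_ ?_))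
  · have := map_sub (valHom r) x.1 y.1
    exact this.trans (sub_eq_zero.2 h1)
  · have := map_sub (valHom s) x.1 y.1
    exact this.trans (sub_eq_zero.2 h2)

theorem inter_bot (S : Finset ℚ) (hS : S.Nonempty) (B : Finset (ℤ × ℤ))
    (hB : Structured S B) (a b : {z // z ∈ B})
    (hab : ∀ r : {t // t ∈ insertNone S},
      (⨆ s : {s : {t // t ∈ insertNone S} // s ≠ r}, ker B s.1.1) a b) : a = b := by
  classical
  obtain ⟨r0, hr0⟩ := hS
  let t0 : {t // t ∈ insertNone S} := ⟨none, by simp⟩
  let t1 : {t // t ∈ insertNone S} := ⟨some r0, by simp [hr0]⟩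
  have ht01 : t0.1 ≠ t1.1 := by simp [t0, t1]
  have : Nonempty {t // t ∈ insertNone S} := ⟨t0⟩
  -- points are determined by their projections
  have hext : ∀ x y : {z // z ∈ B}, (∀ t ∈ insertNone S, val t x.1 = val t y.1) → x = y :=
    fun x y h => ext_of_two ht01 (h _ t0.2) (h _ t1.2)
  have hdis : ∀ r s : {t // t ∈ insertNone S}, r ≠ s → ∀ x y, ker B r.1 x y → ker B s.1 x y →
      x = y := by
    intro r s hrs x y h1 h2
    exact ext_of_two (fun h => hrs (Subtype.ext h)) h1 h2
  rcases hB with hB | hB | hB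
  · obtain ⟨n, q, p, hG, hq, hp⟩ := hB
    -- the operations on `B`
    have hex : ∀ f : Option ℚ → ℚ → ℚ → ℚ → ℚ, ClosedThree S f B →
        ∃ F : {z // z ∈ B} → {z // z ∈ B} → {z // z ∈ B} → {z // z ∈ B},
          ∀ x y z, ∀ t ∈ insertNone S, val t (F x y z).1 = f t (val t x.1) (val t y.1) (val t z.1) := by
      intro f hf
      have h1 : ∀ x y z : {z // z ∈ B}, ∃ w : {z // z ∈ B}, ∀ t ∈ insertNone S,
          val t w.1 = f t (val t x.1) (val t y.1) (val t z.1) := by
        intro x y z
        obtain ⟨d, hd, h⟩ := hf x.1 x.2 y.1 y.2 z.1 z.2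
        exact ⟨⟨d, hd⟩, h⟩
      choose F hF using h1
      exact ⟨F, hF⟩
    obtain ⟨P, hP⟩ := hex p hp
    have hex' : ∀ i : ℕ, ∃ F : {z // z ∈ B} → {z // z ∈ B} → {z // z ∈ B} → {z // z ∈ B},
        ∀ x y z, ∀ t ∈ insertNone S, val t (F x y z).1 =
          if i ≤ n then q t i (val t x.1) (val t y.1) (val t z.1) else val t x.1 := by
      intro i
      by_cases hi : i ≤ n
      · obtain ⟨F, hF⟩ := hex _ (hq i hi)
        refine ⟨F, fun x y z t ht => ?_⟩
        rw [if_pos hi]
        exact hF x y z t ht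
      · refine ⟨fun x _ _ => x, fun x y z t _ => ?_⟩
        rw [if_neg hi]
    choose Q hQ using hex'
    have hQn : ∀ i, i ≤ n → ∀ x y z, ∀ t ∈ insertNone S,
        val t (Q i x y z).1 = q t i (val t x.1) (val t y.1) (val t z.1) := by
      intro i hi x y z t ht
      rw [hQ i x y z t ht, if_pos hi]
    have hGG : Pool.Agent.V7H18.CM.Gumm n Q P := by
      refine ⟨?_, ?_, ?_, ?_, ?_, ?_⟩
      · intro i x y
        refine hext _ _ fun t ht => ?_
        rw [hQ i x y x t ht]
        split_ifs with hi
        · exact (hG t ht).idem i hi _ _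
        · rfl
      · intro x y z
        refine hext _ _ fun t ht => ?_
        rw [hQn 0 (Nat.zero_le n) x y z t ht]
        exact (hG t ht).first _ _ _
      · intro i hi he x y
        refine hext _ _ fun t ht => ?_
        rw [hQn i hi.le x y y t ht, hQn (i + 1) hi x y y t ht]
        exact (hG t ht).even i hi he _ _
      · intro i hi ho x y
        refine hext _ _ fun t ht => ?_
        rw [hQn i hi.le x x y t ht, hQn (i + 1) hi x x y t ht]
        exact (hG t ht).odd i hi ho _ _
      · intro x y
        refine hext _ _ fun t ht => ?_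
        rw [hQn n le_rfl x y y t ht, hP x y y t ht]
        exact (hG t ht).last _ _
      · intro x y
        refine hext _ _ fun t ht => ?_
        rw [hP x x y t ht]
        exact (hG t ht).mal _ _
    have hcon : ∀ s : {t // t ∈ insertNone S}, Pool.Agent.V7H18.CM.IsCon Q P (ker B s.1) := by
      intro s
      refine ⟨fun i x x' y y' z z' hx hy hz => ?_, fun x x' y y' z z' hx hy hz => ?_⟩
      · rw [ker_iff] at hx hy hz ⊢
        rw [hQ i x y z s.1 s.2, hQ i x' y' z' s.1 s.2, hx, hy, hz]
      · rw [ker_iff] at hx hy hz ⊢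
        rw [hP x y z s.1 s.2, hP x' y' z' s.1 s.2, hx, hy, hz]
    refine Pool.Agent.V7H18.CM.gumm_inter (θ := fun s : {t // t ∈ insertNone S} => ker B s.1)
      (L := fun s : {t // t ∈ insertNone S} => (valHom s.1).ker)
      (pos := fun z : {z // z ∈ B} => z.1) torsion_free Subtype.val_injective ?_ ?_ hGG hcon hab
    · intro r s hrs v h1 h2
      exact two_directions (fun h => hrs (Subtype.ext h)) v h1 h2
    · intro s x y h
      rw [AddMonoidHom.mem_ker, map_sub]
      exact sub_eq_zero.2 (ker_iff.1 h).symm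
  · obtain ⟨m, hm, hmB⟩ := hB
    have hex : ∃ F : {z // z ∈ B} → {z // z ∈ B} → {z // z ∈ B},
        ∀ x y, ∀ t ∈ insertNone S, val t (F x y).1 = m t (val t x.1) (val t y.1) := by
      have h1 : ∀ x y : {z // z ∈ B}, ∃ w : {z // z ∈ B}, ∀ t ∈ insertNone S,
          val t w.1 = m t (val t x.1) (val t y.1) := by
        intro x y
        obtain ⟨d, hd, h⟩ := hmB x.1 x.2 y.1 y.2
        exact ⟨⟨d, hd⟩, h⟩
      choose F hF using h1
      exact ⟨F, hF⟩
    obtain ⟨F, hF⟩ := hex
    refine Pool.Agent.V7H18.CM.semilattice_inter F ?_ ?_ ?_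
      (θ := fun s : {t // t ∈ insertNone S} => ker B s.1) ?_ hdis hab
    · intro x
      refine hext _ _ fun t ht => ?_
      rw [hF x x t ht]
      exact (hm t ht).idem _
    · intro x y
      refine hext _ _ fun t ht => ?_
      rw [hF x y t ht, hF y x t ht]
      exact (hm t ht).comm _ _
    · intro x y z
      refine hext _ _ fun t ht => ?_
      rw [hF (F x y) z t ht, hF x y t ht, hF x (F y z) t ht, hF y z t ht]
      exact (hm t ht).assoc _ _ _
    · intro s x y z h
      rw [ker_iff] at h ⊢
      rw [hF x z s.1 s.2, hF y z s.1 s.2, h]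
  · refine Pool.Agent.V7H18.CM.permute_inter (θ := fun s : {t // t ∈ insertNone S} => ker B s.1)
      (L := fun s : {t // t ∈ insertNone S} => (valHom s.1).ker)
      (pos := fun z : {z // z ∈ B} => z.1) torsion_free Subtype.val_injective ?_ ?_ ?_ hab
    · intro r s hrs v h1 h2
      exact two_directions (fun h => hrs (Subtype.ext h)) v h1 h2
    · intro s x y h
      rw [AddMonoidHom.mem_ker, map_sub]
      exact sub_eq_zero.2 (ker_iff.1 h).symm
    · intro r s hrs x y z hxy hyz
      rw [ker_iff] at hxy hyz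
      have hmap : ∀ t : Option ℚ, val t (x.1 - y.1 + z.1) = val t x.1 - val t y.1 + val t z.1 := by
        intro t
        have h1 := map_add (valHom t) (x.1 - y.1) z.1
        rw [map_sub] at h1
        exact h1
      refine ⟨⟨x.1 - y.1 + z.1, hB r.1 r.2 s.1 s.2 (fun h => hrs (Subtype.ext h)) x.1 x.2 y.1 y.2
        z.1 z.2 hxy hyz⟩, ?_, ?_⟩
      · rw [ker_iff]
        change val s.1 x.1 = val s.1 (x.1 - y.1 + z.1)
        rw [hmap, hyz]
        ring
      · rw [ker_iff]
        change val r.1 (x.1 - y.1 + z.1) = val r.1 z.1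
        rw [hmap, hxy]
        ring

theorem bound_one (S : Finset ℚ) (hS : S.Nonempty) (B : Finset (ℤ × ℤ))
    (hB : Structured S B) (A : Finset (ℤ × ℤ)) (hAB : A ⊆ B) :
    #A ^ #S ≤ #(proj none A) * ∏ r ∈ S, #(proj (some r) A) := by
  classical
  have hcard : Fintype.card {t // t ∈ insertNone S} = #S + 1 := by
    rw [Fintype.card_coe, card_insertNone]
  have h := Pool.Agent.V7H18.CM.count (T := {z // z ∈ B}) (ι := {t // t ∈ insertNone S})
    (X := fun _ => ℚ) (by rw [hcard]; have := card_pos.2 hS; omega)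
    (fun t z => val t.1 z.1) (fun t => ker B t.1) (fun i x y hxy => hxy)
    (inter_bot S hS B hB) (A.subtype (fun z => z ∈ B))
  have hA : #(A.subtype fun z => z ∈ B) = #A := by
    rw [card_subtype, filter_true_of_mem]
    exact fun z hz => hAB hz
  have himg : ∀ t : Option ℚ,
      (A.subtype fun z => z ∈ B).image (fun z => val t z.1) = proj t A := by
    intro t
    ext x
    simp only [proj, mem_image, mem_subtype, Subtype.exists, exists_and_left, exists_prop]
    constructor
    · rintro ⟨z, h1, _, h2⟩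
      exact ⟨z, h1, h2⟩
    · rintro ⟨z, h1, h2⟩
      exact ⟨z, h1, hAB h1, h2⟩
  rw [hA, hcard, Nat.add_sub_cancel] at h
  refine h.trans (le_of_eq ?_)
  simp only [himg]
  rw [prod_coe_sort (insertNone S) fun t => #(proj t A), prod_insertNone]

theorem bound_big (S : Finset ℚ) (hS : S.Nonempty) (B : Finset (ℤ × ℤ))
    (hB : Structured S B) (A : Finset (ℤ × ℤ)) (hAB : A ⊆ B) :
    #A ^ #S ≤ big S A ^ (#S + 1) := by
  refine (bound_one S hS B hB A hAB).trans ?_
  rw [pow_succ, mul_comm]
  refine Nat.mul_le_mul ?_ ?_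
  · refine prod_le_pow_card _ _ _ fun r hr => ?_
    exact Finset.le_sup (f := fun t => #(proj t A)) (some_mem_insertNone.2 hr)
  · exact Finset.le_sup (f := fun t => #(proj t A)) (none_mem_insertNone (s := S))

theorem big_mono (S : Finset ℚ) {A B : Finset (ℤ × ℤ)} (h : A ⊆ B) : big S A ≤ big S B :=
  Finset.sup_mono_fun fun _ _ => card_le_card (image_subset_image h)

theorem union_bound (ε : ℝ) (hε : 0 < ε) : ∃ S : Finset ℚ, (-1 : ℚ) ∉ S ∧ ∃ δ : ℝ, 0 < δ ∧
    ∀ (A : Finset (ℤ × ℤ)) (L : ℕ) (B : Fin L → Finset (ℤ × ℤ)), (∀ a ∈ A, ∃ i, a ∈ B i) →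
      (∀ i, Structured S (B i)) →
      (L : ℝ) ≤ (#(proj (some (-1)) A) : ℝ) ^ δ →
      (#(proj (some (-1)) A) : ℝ) ≤ (big S A : ℝ) ^ (1 + ε) := by
  classical
  obtain ⟨k, hk⟩ := exists_nat_gt (2 / ε)
  set K : ℕ := k + 2 with hK
  set S : Finset ℚ := (range K).image fun i : ℕ => (i : ℚ) with hS
  have hSc : #S = K := by
    rw [hS, card_image_of_injective _ Nat.cast_injective, card_range]
  have hSn : S.Nonempty := card_pos.1 (by rw [hSc]; omega)
  have hKpos : (0 : ℝ) < K := by positivity
  have h1K : 1 / (K : ℝ) ≤ ε / 2 := by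
    have h1 : 2 / ε < K := hk.trans (by rw [hK]; push_cast; linarith)
    rw [div_lt_iff₀ hε] at h1
    rw [div_le_div_iff₀ hKpos (by norm_num)]
    linarith
  refine ⟨S, ?_, ε / (2 * (1 + ε)), by positivity, ?_⟩
  · rw [hS, mem_image]
    rintro ⟨i, -, hi⟩
    have : (0 : ℚ) ≤ (i : ℚ) := Nat.cast_nonneg i
    linarith
  · intro A L B hcov hB hL
    set δ : ℝ := ε / (2 * (1 + ε)) with hδ
    set M : ℝ := (big S A : ℝ) with hM
    set N : ℝ := (#(proj (some (-1)) A) : ℝ) with hN
    rcases A.eq_empty_or_nonempty with rfl | hne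
    · have : N = 0 := by rw [hN]; simp [proj]
      rw [this]
      positivity
    have hM1 : (1 : ℝ) ≤ M := by
      have h1 : 1 ≤ #(proj none A) := card_pos.2 (hne.image _)
      rw [hM]
      exact_mod_cast h1.trans
        (Finset.le_sup (f := fun t => #(proj t A)) (none_mem_insertNone (s := S)))
    have hN1 : (1 : ℝ) ≤ N := by
      have : 1 ≤ #(proj (some (-1)) A) := card_pos.2 (hne.image _)
      rw [hN]
      exact Nat.one_le_cast.2 this
    have h2 : ∀ i, (#(A ∩ B i) : ℝ) ≤ M ^ (1 + 1 / (K : ℝ)) := by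
      intro i
      have h3 := bound_big S hSn (B i) (hB i) (A ∩ B i) inter_subset_right
      rw [hSc] at h3
      have h4 : #(A ∩ B i) ^ K ≤ big S A ^ (K + 1) :=
        h3.trans (Nat.pow_le_pow_left (big_mono S inter_subset_left) _)
      refine le_of_pow_le_pow_left₀ (n := K) (by omega) (by positivity) ?_
      have h5 : (M ^ (1 + 1 / (K : ℝ))) ^ K = M ^ (K + 1) := by
        rw [← Real.rpow_natCast, ← Real.rpow_mul (by positivity), ← Real.rpow_natCast]
        congr 1
        push_cast
        field_simp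
      rw [h5, hM, ← Nat.cast_pow, ← Nat.cast_pow]
      exact Nat.cast_le.2 h4
    have h6 : (#A : ℝ) ≤ L * M ^ (1 + 1 / (K : ℝ)) := by
      have h7 : #A ≤ ∑ i : Fin L, #(A ∩ B i) := by
        have : A ⊆ univ.biUnion fun i => A ∩ B i := fun a ha => by
          obtain ⟨i, hi⟩ := hcov a ha
          exact mem_biUnion.2 ⟨i, mem_univ _, mem_inter.2 ⟨ha, hi⟩⟩
        exact (card_le_card this).trans card_biUnion_le
      calc (#A : ℝ) ≤ ((∑ i : Fin L, #(A ∩ B i) : ℕ) : ℝ) := by exact_mod_cast h7
        _ = ∑ i : Fin L, (#(A ∩ B i) : ℝ) := by push_cast; rfl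
        _ ≤ ∑ _i : Fin L, M ^ (1 + 1 / (K : ℝ)) := sum_le_sum fun i _ => h2 i
        _ = _ := by rw [sum_const, card_univ, Fintype.card_fin, nsmul_eq_mul]
    have h8 : N ≤ #A := by
      have : #(proj (some (-1)) A) ≤ #A := card_image_le
      rw [hN]
      exact Nat.cast_le.2 this
    have h9 : N ≤ N ^ δ * M ^ (1 + ε / 2) := by
      refine h8.trans (h6.trans (mul_le_mul hL ?_ (by positivity) (by positivity)))
      exact Real.rpow_le_rpow_of_exponent_le hM1 (by linarith)
    have hδ1 : δ < 1 := by
      rw [hδ, div_lt_one (by positivity)]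
      linarith
    have hN0 : 0 < N := by linarith
    have h10 : N ^ (1 - δ) ≤ M ^ (1 + ε / 2) := by
      have h11 : N ^ δ * N ^ (1 - δ) = N := by
        rw [← Real.rpow_add hN0]
        simp
      have h12 : N ^ δ * N ^ (1 - δ) ≤ N ^ δ * M ^ (1 + ε / 2) := by rw [h11]; exact h9
      exact le_of_mul_le_mul_left h12 (Real.rpow_pos_of_pos hN0 _)
    have h13 : 1 - δ = (1 + ε / 2) / (1 + ε) := by
      rw [hδ]
      field_simp
      ring
    have h14 : (N ^ (1 - δ)) ^ (1 / (1 - δ)) ≤ (M ^ (1 + ε / 2)) ^ (1 / (1 - δ)) :=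
      Real.rpow_le_rpow (by positivity) h10 (by
        have : 0 < 1 - δ := by linarith
        positivity)
    rw [← Real.rpow_mul hN0.le, ← Real.rpow_mul (by linarith), mul_one_div_cancel (by linarith),
      Real.rpow_one] at h14
    refine h14.trans (le_of_eq ?_)
    congr 1
    rw [h13]
    field_simp

/-- **Theorem.** Let `B ⊂ ℤ × ℤ` be finite and closed under Gumm operations of its projections (in
particular: under majority operations, or under Mal'cev operations), or under semilattice operations,
or under the completion of parallelograms with sides parallel to the fibres of two projections.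
(1) `|A| ^ |S| ≤ |π_∞(A)| ∏_{r ∈ S} |π_r(A)|` for all subsets `A` of `B` and all nonempty finite sets `S` of
slopes. (2) For every `ε > 0` there are a finite set `S` of slopes different from `-1` and `δ > 0` such
that `|π_{-1}(A)| ≤ big S A ^ (1 + ε)` for all `A` covered by at most `|π_{-1}(A)| ^ δ` such sets. -/
theorem result :
    (∀ S : Finset ℚ, S.Nonempty → ∀ B : Finset (ℤ × ℤ), Structured S B →
      ∀ A : Finset (ℤ × ℤ), A ⊆ B → #A ^ #S ≤ #(proj none A) * ∏ r ∈ S, #(proj (some r) A)) ∧
    (∀ ε : ℝ, 0 < ε → ∃ S : Finset ℚ, (-1 : ℚ) ∉ S ∧ ∃ δ : ℝ, 0 < δ ∧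
      ∀ (A : Finset (ℤ × ℤ)) (L : ℕ) (B : Fin L → Finset (ℤ × ℤ)), (∀ a ∈ A, ∃ i, a ∈ B i) →
        (∀ i, Structured S (B i)) →
        (L : ℝ) ≤ (#(proj (some (-1)) A) : ℝ) ^ δ →
        (#(proj (some (-1)) A) : ℝ) ≤ (big S A : ℝ) ^ (1 + ε)) ∧
    (∀ (S : Finset ℚ) (B : Finset (ℤ × ℤ)), MajorityClosed S B ∨ MalcevClosed S B →
      GummClosed S B) :=
  ⟨fun S hS B hB A hA => bound_one S hS B hB A hA, union_bound,
    fun S B h => h.elim (majority_gumm S B) (malcev_gumm S B)⟩

end Pool.Agent.V7H18.CM.ModularClosedH18
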